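import Pool.Agent.H.MP_daf980_lc.E

set_option autoImplicit false

namespace Pool.Agent.Results.MP_daf980_lc.Hard
open Pool.Agent.Lib.CX

/-- `H` has a sum labelling -/
def IsSumGraph {V : Type} (H : SimpleGraph V) : Prop :=
  ∃ g : V → ℕ, Function.Injective g ∧ (∀ v, 0 < g v) ∧
    ∀ u v, u ≠ v → (H.Adj u v ↔ ∃ w, g u + g v = g w)

theorem result :
    NPHard fun a : Gr × ℕ => ∃ s ≤ a.2, IsSumGraph (a.1.G ⊕g (⊥ : SimpleGraph (Fin s))) :=
  col3_hard.red ⟨_, H.MP_daf980_lc.pt_red, H.MP_daf980_lc.main⟩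

end Pool.Agent.Results.MP_daf980_lc.Hard
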